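import Pool.Agent.H9.UZ.Tar

/-!
# MP_f6fd33_lc, part FB: new labels (target FB4)
-/

set_option linter.unusedVariables false

open Ordinal Order Set
open scoped ZFSet

namespace SE.UZ.H23

open SF SE SE.UZ

/-- FB4: new labels -/
theorem pf_FB4 (hBA : T_BA) (hBR : T_BR) (hBO : T_BO) : T_FB4 := by
  intro D κ hA B hB Y hNY hY e τ hτ u hu Z hZ
  obtain ⟨hlab, hrk, -⟩ := hBA
  obtain ⟨-, -, -, hpr, hps, hlb, -, -, -, hnS⟩ := hBR D hA.ok
  have hNB : D.N B := hA.ok.zfc.trans _ hA.ok.hN _ hB.h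
  obtain ⟨-, -, -, hkn, -, -⟩ := hBO D hA.ok B hNB hB.c
  obtain ⟨hk1, hk2, -⟩ := hkn 0
  have hY' : Y ∈ D.H := (hps B hB.h).2.2.2.2 Y hNY hY
  have hk' : knm D.L B 0 ∈ D.H := (hps B hB.h).2.2.2.2 _ hk1 hk2
  have hs : Nam D.L B (sel (nS e = nS 3) Y (knm D.L B 0)) := by
    unfold sel
    split_ifs
    · exact hY
    · exact hk2
  have hs' : sel (nS e = nS 3) Y (knm D.L B 0) ∈ D.H := by
    unfold sel
    split_ifs
    · exact hY'
    · exact hk'
  have hg : ZFSet.pair (nS e) (ZFSet.pair (ZFSet.pair Z B) (ZFSet.pair τ u)) ∈ D.H :=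
    (hpr _ (hnS e) _ (hpr _ (hpr _ hZ _ hB.h).1 _ (hpr _ hτ _ hu).1).1).1
  generalize hi : mk D.L (nS e) (ZFSet.pair Z B) τ u B Y = i
  have hi2 : i = lab (nS 0) (ZFSet.pair (nS e) (ZFSet.pair (ZFSet.pair Z B) (ZFSet.pair τ u))) B
      (sel (nS e = nS 3) Y (knm D.L B 0)) Y (knm D.L B 0) (knm D.L B 0) := by
    rw [← hi]
    rfl
  obtain ⟨p1, p2, p3, p4, p5, p6, p7⟩ := hlab (nS 0)
    (ZFSet.pair (nS e) (ZFSet.pair (ZFSet.pair Z B) (ZFSet.pair τ u))) B
    (sel (nS e = nS 3) Y (knm D.L B 0)) Y (knm D.L B 0) (knm D.L B 0)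
  rw [← hi2] at p1 p2 p3 p4 p5 p6 p7
  have hL : Lab D.L i := by
    refine ⟨?_, Or.inl p1, ?_, ?_, ?_, ?_, ?_⟩
    · rw [p1, p2, p3, p4, p5, p6, p7]
      exact hi2
    · rw [p3]
      intro j hj
      exact (hB.c j hj).2
    · rw [p3, p4]
      exact hs
    · rw [p3, p5]
      exact hY
    · rw [p3, p6]
      exact hk2
    · rw [p3, p7]
      exact hk2
  have e1 : kd i = nS e := by
    unfold kd
    rw [p2, fst_pair]
  have e2 : tg i = ZFSet.pair Z B := by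
    unfold tg
    rw [p2, snd_pair, fst_pair]
  have e3 : tm i = τ := by
    unfold tm
    rw [p2, snd_pair, snd_pair, fst_pair]
  have e4 : vw i = u := by
    unfold vw
    rw [p2, snd_pair, snd_pair, snd_pair]
  have hiB : i ∉ B := by
    have h := (hrk D.L i hL).2.2.2.2.2.1
    rwa [p3] at h
  have hiZ : i ∉ Z := by
    intro h
    have h1 := ZFSet.rank_lt_of_mem h
    have h2 : Z.rank ≤ (tg i).rank := by
      have := TT.rank_fst_le (tg i)
      rwa [e2, fst_pair, ← e2] at this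
    have h3 : (tg i).rank ≤ (lG i).rank := by
      unfold tg
      exact (TT.rank_fst_le _).trans (TT.rank_snd_le _)
    have h4 := (hrk D.L i hL).1
    exact absurd (lt_of_lt_of_le h1 (h2.trans (h3.trans h4.le))) (lt_irrefl _)
  have hiH : i ∈ D.H := by
    rw [hi2]
    exact hlb _ _ _ _ _ _ _ (hnS 0) hg hB.h hs' hY' hk' hk'
  refine ⟨i, hiB, hiZ, ⟨(hpr _ hiH _ hB.h).2.2, ?_, ?_⟩, e1, e3, e4, p3, p5⟩
  · intro j hj
    rcases ZFSet.mem_insert_iff.1 hj with rfl | hj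
    · refine ⟨hL, ?_⟩
      rw [p3]
      intro x hx
      exact ZFSet.mem_insert_iff.2 (Or.inr hx)
    · refine ⟨(hB.c j hj).1, ?_⟩
      intro x hx
      exact ZFSet.mem_insert_iff.2 (Or.inr ((hB.c j hj).2 hx))
  · intro j hj
    rcases ZFSet.mem_insert_iff.1 hj with rfl | hj
    · refine ⟨hL, ?_, ?_⟩
      · rw [e1]
        exact nS_mem_om e
      · rw [e1, e2, e3, e4, p3, p5]
        exact hi.symm
    · exact hB.g j hj

end SE.UZ.H23
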