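import Pool.Agent.H38.UZ.TarZ

/-!
# MP_f6fd33_lc, section 8: successor steps (target Y11)
-/

set_option linter.unusedVariables false

open Ordinal Order Set
open scoped ZFSet

namespace SE.UZ.H23

open SF SE SE.UZ

/-- the term for the set of labels of a tower of a family -/
theorem tm_uts : Tm ZFm (fun _ w => resS (w 3) fun x => (⋃₀ (imS (w 0) fun ξ =>
    app (w 2) (fst (app (app (w 1) x) ξ))) : ZFSet)) := by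
  have h2 : Tm ZFm (fun _ y => app (y 4) (fst (app (app (y 3) (y 1)) (y 0)))) :=
    Tm.app (Tm.var 4) (Tm.fst (Tm.app (Tm.app (Tm.var 3) (Tm.var 1)) (Tm.var 0)))
  have h1 : Tm ZFm (fun _ y => (⋃₀ (imS (y 1) fun ξ =>
      app (y 3) (fst (app (app (y 2) (y 0)) ξ))) : ZFSet)) :=
    Tm.iUn (f := fun _ y => y 1)
      (g := fun _ y => app (y 4) (fst (app (app (y 3) (y 1)) (y 0)))) (Tm.var 1) h2
  exact Tm.resS (f := fun _ w => w 3) (g := fun _ y => (⋃₀ (imS (y 1) fun ξ =>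
      app (y 3) (fst (app (app (y 2) (y 0)) ξ))) : ZFSet)) (Tm.var 3) h1

/-- the union of the sets of labels of the towers of a family is an element of `D.H` -/
theorem uts_mem (hW0 : T_W0) (hBR : T_BR) (D : Cx) (κ : V) (b : BS) (hA : Amb D κ)
    (hb : b.Ok D κ) (I F : V) (hI : I ∈ D.H) (hF : D.N F) (hT : ∀ v ∈ I, b.Tw D κ (app F v)) :
    ∃ U ∈ D.H, ∀ v ∈ I, b.ut κ (app F v) ⊆ U := by
  have hz : ZFm D.N := hA.ok.zfc.toZFCm.toZFm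
  have hN : ∀ x ∈ D.H, D.N x := hA.ok.zfc.trans _ hA.ok.hN
  obtain ⟨-, hrep, -⟩ := hBR D hA.ok
  have h3 : D.N (resS I fun x => b.ut κ (app F x)) :=
    tm_uts.1 D.N hz (cons κ (cons F (cons b.U (fun _ => I))))
      (In.cons (In.cons (In.cons (fun _ => hN I hI) hb.nU) hF) (hN κ hA.kH))
  obtain ⟨h4, -⟩ := hrep _ I h3 (svl_resS _ _) (dm_resS _ _) hI (by
    intro y hy
    obtain ⟨x, hx⟩ := mem_rg.1 hy
    obtain ⟨hxI, rfl⟩ := pair_mem_resS.1 hx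
    exact (hW0 D κ b hA hb _ (hT x hxI)).1)
  refine ⟨_, hA.ok.zfH.union _ h4, ?_⟩
  intro v hv i hi
  exact ZFSet.mem_sUnion.2 ⟨_, mem_rg.2 ⟨v, pair_mem_resS.2 ⟨hv, rfl⟩⟩, hi⟩

/-- Y11: successor steps -/
theorem pf_Y11 (hX4 : T_X4) (hY4 : T_Y4) (hY8 : T_Y8) (hY9 : T_Y9) (hY10 : T_Y10)
    (hW0 : T_W0) (hBR : T_BR) : T_Y11 := by
  intro D κ b hA hb I F Z ξ0 v0 w0 hP ξ hξ f hf
  have hN : ∀ x ∈ D.H, D.N x := hA.ok.zfc.trans _ hA.ok.hN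
  have hg : b.Pg D κ I F Z ξ0 v0 w0 ξ (app f ξ) :=
    hf.g ξ (ZFSet.mem_insert_iff.2 (Or.inl rfl))
  obtain ⟨U, hU, hU2⟩ := uts_mem hW0 hBR D κ b hA hb I F hP.h hP.n hP.t
  have hw : ∃ W ∈ D.H, ξ0 ∈ κ → b.u (fst w0) ⊆ W := by
    by_cases h : ξ0 ∈ κ
    · obtain ⟨-, -, h2, -, -⟩ := hP.v h
      exact ⟨_, (hb.cs _ (hb.leO _ _ h2.le).2.1).h, fun _ _ hi => hi⟩
    · exact ⟨κ, hA.kH, fun h' => absurd h' h⟩
  obtain ⟨W, hW, hW2⟩ := hw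
  obtain ⟨-, -, -, hpr, -⟩ := hBR D hA.ok
  have hZ' : Z ∪ (U ∪ W) ∈ D.H := (hpr _ hP.z _ (hpr _ hU _ hW).2.1).2.1
  have hAv : b.Av D κ I F Z ξ0 w0 (Z ∪ (U ∪ W)) :=
    ⟨hZ', fun i hi => ZFSet.mem_union.2 (Or.inl hi),
      fun v hv i hi => ZFSet.mem_union.2 (Or.inr (ZFSet.mem_union.2 (Or.inl (hU2 v hv hi)))),
      fun h i hi => ZFSet.mem_union.2 (Or.inr (ZFSet.mem_union.2 (Or.inr (hW2 h hi))))⟩
  obtain ⟨I1, F1, hI1, hF1, hp, hd, hgn⟩ := hX4 D κ b hA hb ξ hξ (app f ξ) hg.w hg.tm _ hZ'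
  have hPts : b.Pts D ξ (Z ∪ (U ∪ W)) (app f ξ) I1 F1 := ⟨hI1, hF1, hp, hd⟩
  obtain ⟨u, hu⟩ := hY4 D κ b hA hb I F Z ξ0 v0 w0 hP ξ hξ _ hg _ hAv I1 F1 hPts
  have hle := hu.lq.1.le
  have huO : fst u ∈ b.Ob := (hb.leO _ _ hle).2.1
  have hG : ∀ G, D.Gn (b.u (fst u)) G → b.Gnr D ξ (app f ξ) I1 F1 (b.u (fst u)) G := by
    intro G hG
    refine hgn (b.u (fst u)) (hN _ (hb.cs _ huO).h) (hb.cs _ huO).c ?_ (hb.leO _ _ hle).2.2 G hG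
    intro x hx
    exact (hb.leO _ _ (hu.lp x hx).le).2.2
  obtain ⟨u', hu'⟩ := hY8 D κ b hA hb I F Z ξ0 v0 w0 hP ξ hξ _ hg _ hAv I1 F1 hPts u hu hG
  obtain ⟨q', hq1, hq2, hq3, hq4⟩ :=
    hY9 D κ b hA hb I F Z ξ0 v0 w0 hP ξ hξ _ hg _ hAv I1 F1 hPts u hu u' hu'
  exact ⟨q', hY10 D κ b hA hb I F Z ξ0 v0 w0 hP ξ hξ f hf _ rfl _ hAv I1 F1 hPts u hu hG u' hu'
    q' hq1 hq2 hq3 hq4⟩

end SE.UZ.H23
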